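import Pool.Agent.K4H10.PR.Spec

set_option autoImplicit false

namespace Pool.Agent.K4H22.PR

open Polynomial Pool.Agent.K4H10.PR

theorem zpow_dvd {j N e : ℕ} (hN : N = j * e) (h0 : 0 < N) :
    Complex.exp (2 * Real.pi * Complex.I / N) ^ e = Complex.exp (2 * Real.pi * Complex.I / j) := by
  have he : (e : ℂ) ≠ 0 := by
    rintro h
    have : e = 0 := by exact_mod_cast h
    subst this
    omega
  have hj : (j : ℂ) ≠ 0 := by
    rintro h
    have : j = 0 := by exact_mod_cast h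
    subst this
    omega
  rw [← Complex.exp_nat_mul, hN]
  congr 1
  push_cast
  field_simp

theorem gen_mem (n : ℕ) : Complex.exp (2 * Real.pi * Complex.I / n) ∈ cyc n :=
  IntermediateField.subset_adjoin _ _ rfl

theorem cyc_le {j N : ℕ} (h : j ∣ N) (h0 : 0 < N) : cyc j ≤ cyc N := by
  obtain ⟨e, he⟩ := h
  unfold cyc
  rw [IntermediateField.adjoin_le_iff]
  intro y hy
  rw [Set.mem_singleton_iff] at hy
  subst hy
  rw [← zpow_dvd he h0]
  exact pow_mem (gen_mem N) e

theorem agree {j N : ℕ} (h : j ∣ N) (h0 : 0 < N) (f g : cyc N ≃ₐ[ℚ] cyc N) (a b : ℕ)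
    (hf : f ⟨_, gen_mem N⟩ = ⟨_, gen_mem N⟩ ^ a) (hg : g ⟨_, gen_mem N⟩ = ⟨_, gen_mem N⟩ ^ b)
    (hab : a ≡ b [MOD j]) (x : ℂ) (hx : x ∈ cyc j) :
    f ⟨x, cyc_le h h0 hx⟩ = g ⟨x, cyc_le h h0 hx⟩ := by
  have hz : IsPrimitiveRoot (⟨_, gen_mem N⟩ : cyc N) N :=
    IsPrimitiveRoot.of_map_of_injective (f := (cyc N).val) (Complex.isPrimitiveRoot_exp N h0.ne')
      (cyc N).val.injective
  obtain ⟨e, he⟩ := h
  unfold cyc at hx
  induction hx using IntermediateField.adjoin_induction with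
  | mem y hy =>
    rw [Set.mem_singleton_iff] at hy
    subst hy
    have h1 : (⟨_, cyc_le ⟨e, he⟩ h0 (gen_mem j)⟩ : cyc N) = ⟨_, gen_mem N⟩ ^ e := by
      apply Subtype.ext
      exact (zpow_dvd he h0).symm
    rw [h1, map_pow, map_pow, hf, hg, ← pow_mul, ← pow_mul]
    refine pow_eq_pow_of_modEq (n := j * e) (Nat.ModEq.mul_right' e hab) ?_
    rw [← he]
    exact hz.pow_eq_one
  | algebraMap q => exact (f.commutes q).trans (g.commutes q).symm
  | add x y hx hy h1 h2 =>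
    exact (map_add f ⟨x, cyc_le ⟨e, he⟩ h0 hx⟩ ⟨y, cyc_le ⟨e, he⟩ h0 hy⟩).trans
      ((congrArg₂ (· + ·) h1 h2).trans (map_add g _ _).symm)
  | inv x hx h1 =>
    exact (map_inv₀ f ⟨x, cyc_le ⟨e, he⟩ h0 hx⟩).trans
      ((congrArg (·⁻¹) h1).trans (map_inv₀ g _).symm)
  | mul x y hx hy h1 h2 =>
    exact (map_mul f ⟨x, cyc_le ⟨e, he⟩ h0 hx⟩ ⟨y, cyc_le ⟨e, he⟩ h0 hy⟩).trans
      ((congrArg₂ (· * ·) h1 h2).trans (map_mul g _ _).symm)

theorem _root_.Pool.Agent.K4H10.PR.con : StCon := by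
  intro m n hm hn x hx
  obtain ⟨hxm, hxn⟩ := IntermediateField.mem_inf.1 hx
  set N := Nat.lcm m n with hN
  set d := Nat.gcd m n with hd
  have h0 : 0 < N := Nat.lcm_pos hm hn
  have hmN : m ∣ N := Nat.dvd_lcm_left m n
  have hnN : n ∣ N := Nat.dvd_lcm_right m n
  have hdN : d ∣ N := (Nat.gcd_dvd_left m n).trans hmN
  have : NeZero N := ⟨h0.ne'⟩
  have hz : IsPrimitiveRoot (⟨_, gen_mem N⟩ : cyc N) N :=
    IsPrimitiveRoot.of_map_of_injective (f := (cyc N).val) (Complex.isPrimitiveRoot_exp N h0.ne')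
      (cyc N).val.injective
  have hcyc : IsCyclotomicExtension {N} ℚ (cyc N) := by
    have hp : IsPrimitiveRoot (Complex.exp (2 * Real.pi * Complex.I / N)) N :=
      Complex.isPrimitiveRoot_exp N h0.ne'
    change IsCyclotomicExtension {N} ℚ (cyc N).toSubalgebra
    unfold cyc
    rw [IntermediateField.adjoin_simple_toSubalgebra_of_isAlgebraic
      (hp.isIntegral h0).tower_top.isAlgebraic]
    exact hp.adjoin_isCyclotomicExtension ℚ
  have : FiniteDimensional ℚ (cyc N) := IsCyclotomicExtension.finiteDimensional {N} ℚ (cyc N)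
  have : IsGalois ℚ (cyc N) := IsCyclotomicExtension.isGalois {N} ℚ (cyc N)
  let D : IntermediateField ℚ (cyc N) := IntermediateField.restrict (cyc_le hdN h0)
  have key : (⟨x, cyc_le hmN h0 hxm⟩ : cyc N) ∈ D := by
    rw [← IsGalois.fixedField_fixingSubgroup D, IntermediateField.mem_fixedField_iff]
    intro σ hσ
    rw [IntermediateField.mem_fixingSubgroup_iff] at hσ
    obtain ⟨k, hk1, hk2, hk3⟩ := (hz.isPrimitiveRoot_iff).1 (hz.map_of_injective σ.injective)
    obtain ⟨e, he⟩ := hdN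
    have hfix : σ (⟨_, gen_mem N⟩ ^ e) = ⟨_, gen_mem N⟩ ^ e := by
      apply hσ
      refine (IntermediateField.mem_restrict _ _).2 ?_
      change Complex.exp (2 * Real.pi * Complex.I / N) ^ e ∈ cyc d
      rw [zpow_dvd he h0]
      exact gen_mem d
    rw [map_pow, ← hk3, ← pow_mul] at hfix
    have he0 : 0 < e := by
      rcases Nat.eq_zero_or_pos e with h | h
      · rw [h] at he
        omega
      · exact h
    have hkd : k ≡ 1 [MOD d] := by
      rcases k with _ | k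
      · have h1 : N = 1 := by simpa using hk2
        have h2 : d = 1 := Nat.dvd_one.1 (h1 ▸ ⟨e, he⟩)
        rw [h2]
        exact Nat.modEq_one
      · have hne : (⟨_, gen_mem N⟩ : cyc N) ^ e ≠ 0 := pow_ne_zero _ (hz.ne_zero h0.ne')
        have h1 : (⟨_, gen_mem N⟩ : cyc N) ^ (k * e) = 1 := by
          have h2 : (⟨_, gen_mem N⟩ : cyc N) ^ (k * e) * ⟨_, gen_mem N⟩ ^ e = 1 * ⟨_, gen_mem N⟩ ^ e := by
            rw [← pow_add, one_mul, ← hfix]
            congr 1
            ring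
          exact mul_right_cancel₀ hne h2
        have h3 := hz.dvd_of_pow_eq_one _ h1
        rw [he] at h3
        obtain ⟨t, ht⟩ := Nat.dvd_of_mul_dvd_mul_right he0 h3
        rw [ht]
        unfold Nat.ModEq
        simp
    obtain ⟨l, hl1, hl2⟩ := Nat.chineseRemainder' (n := m) (m := n) (a := 1) (b := k) hkd.symm
    have c1 : Nat.Coprime l m := by
      have := hl1.gcd_eq
      rw [Nat.gcd_one_left] at this
      exact this
    have c2 : Nat.Coprime l n := by
      have := hl2.gcd_eq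
      have hkn : Nat.gcd k n = 1 := hk2.coprime_dvd_right hnN
      rw [hkn] at this
      exact this
    have c3 : Nat.Coprime l N :=
      (Nat.Coprime.mul_right c1 c2).coprime_dvd_right (Nat.lcm_dvd_mul m n)
    have hirr : Irreducible (cyclotomic N ℚ) := cyclotomic.irreducible_rat h0
    have hzeta := IsCyclotomicExtension.zeta_spec N ℚ (cyc N)
    obtain ⟨b, -, hb⟩ := hzeta.eq_pow_of_pow_eq_one hz.pow_eq_one
    have hτ0 := IsCyclotomicExtension.fromZetaAut_spec (hzeta.pow_of_coprime l c3) hirr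
    obtain ⟨τ, hτ⟩ : ∃ τ : cyc N ≃ₐ[ℚ] cyc N, τ = IsCyclotomicExtension.fromZetaAut
      (hzeta.pow_of_coprime l c3) hirr := ⟨_, rfl⟩
    rw [← hτ] at hτ0
    have hτ1 : τ ⟨_, gen_mem N⟩ = ⟨_, gen_mem N⟩ ^ l := by
      rw [← hb, map_pow, hτ0, ← pow_mul, ← pow_mul, mul_comm]
    have e1 := agree hnN h0 σ τ k l hk3.symm hτ1 hl2.symm x hxn
    have e2 := agree hmN h0 τ AlgEquiv.refl l 1 hτ1 (by simp) hl1 x hxm
    exact e1.trans e2
  exact (IntermediateField.mem_restrict (cyc_le hdN h0) _).1 key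

end Pool.Agent.K4H22.PR
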